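import Pool.Agent.K6.H54.Imb
import Pool.Agent.R798.EGdeg

/-!
# MP_440a65_co: the multiset of edge imbalances is graphic

If every edge of a finite simple graph joins two vertices of different degrees, then the multiset
of the numbers `|deg u - deg v|`, one for each edge `uv`, is the degree multiset of a simple graph.

Proof. We verify the inequalities of Erdos and Gallai for every set `F` of `k` edges. If some edge
of `F` has imbalance less than `k` it can be removed. Otherwise let `u` be a vertex of maximum
degree `D` among the ends of the edges of `F`; then all the imbalances in `F` are less than `D`,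
and the edges outside `F` at `u` and at its neighbours give enough on the other side: edges between
neighbours of `u` with imbalance one join neighbours of even and of odd degree, so there are at
most `q ^ 2 / 4` of them if there are `q` neighbours concerned.
-/

set_option autoImplicit false

namespace Pool.Agent.Results.MP_440a65_co.ImbalanceGraphic

open Finset

/-- The imbalance of an edge `uv`: the absolute value of `deg u - deg v`. -/
def imbalance {V : Type} [Fintype V] (G : SimpleGraph V) [DecidableRel G.Adj] : Sym2 V → ℕ :=
  Sym2.lift ⟨fun u v => ((G.degree u : ℤ) - (G.degree v : ℤ)).natAbs, fun u v => by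
    show ((G.degree u : ℤ) - (G.degree v : ℤ)).natAbs = ((G.degree v : ℤ) - (G.degree u : ℤ)).natAbs
    omega⟩

/-- The multiset `M_G` of the imbalances of the edges of `G`, with one element for each edge. -/
def imbalanceMultiset {V : Type} [Fintype V] [DecidableEq V] (G : SimpleGraph V)
    [DecidableRel G.Adj] : Multiset ℕ :=
  G.edgeFinset.val.map (imbalance G)

/-- A multiset of natural numbers is graphic if it is the multiset of the degrees of the vertices
of a simple graph. -/
def IsGraphic (M : Multiset ℕ) : Prop :=
  ∃ (n : ℕ) (H : SimpleGraph (Fin n)) (_ : DecidableRel H.Adj),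
    (Finset.univ : Finset (Fin n)).val.map (fun v => H.degree v) = M

lemma card_imbalanceMultiset {V : Type} [Fintype V] [DecidableEq V] (G : SimpleGraph V)
    [DecidableRel G.Adj] : (imbalanceMultiset G).card = G.edgeFinset.card := by
  simp [imbalanceMultiset]

/-- The edges can be listed with nonincreasing imbalances. -/
lemma exists_list {V : Type} [DecidableEq V] (E : Finset (Sym2 V)) (h : Sym2 V → ℕ) :
    ∃ (m : ℕ) (ed : Fin m → Sym2 V), Function.Injective ed ∧ Finset.univ.image ed = E ∧
      Antitone fun i => h (ed i) := by
  let e0 : Fin E.card ≃ E := E.equivFin.symm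
  let g : Fin E.card → ℕ := fun i => h (e0 i).1
  let σ : Equiv.Perm (Fin E.card) := Tuple.sort (fun i => OrderDual.toDual (g i))
  refine ⟨E.card, fun i => (e0 (σ i)).1, ?_, ?_, ?_⟩
  · intro i j hij
    exact σ.injective (e0.injective (Subtype.ext hij))
  · ext x
    simp only [mem_image, mem_univ, true_and]
    constructor
    · rintro ⟨i, rfl⟩
      exact (e0 (σ i)).2
    · intro hx
      refine ⟨σ.symm (e0.symm ⟨x, hx⟩), ?_⟩
      simp
  · have h1 : Monotone ((fun i => OrderDual.toDual (g i)) ∘ σ) := Tuple.monotone_sort _
    intro i j hij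
    exact h1 hij

/-- **Main theorem.** If every edge of a finite simple graph `G` has positive imbalance, then the
multiset of the imbalances of the edges of `G` is graphic. -/
theorem result : ∀ (V : Type) [Fintype V] [DecidableEq V] (G : SimpleGraph V)
    [DecidableRel G.Adj], (∀ e ∈ G.edgeFinset, 0 < imbalance G e) →
    IsGraphic (imbalanceMultiset G) := by
  classical
  intro V _ _ G _ hpos
  have himb : imbalance G = Pool.Agent.K6.H54.Imb.imb G := rfl
  rw [himb] at hpos
  obtain ⟨m, ed, hedinj, hedE, hb⟩ := exists_list G.edgeFinset (Pool.Agent.K6.H54.Imb.imb G)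
  have hev : Even (∑ i, Pool.Agent.K6.H54.Imb.imb G (ed i)) := by
    have h1 := Pool.Agent.K6.H54.Imb.even_sum G
    rwa [← hedE, Finset.sum_image (fun i _ j _ h => hedinj h)] at h1
  obtain ⟨H, hH⟩ := Pool.Agent.R798.EGdeg.erdosGallai
    (fun i => Pool.Agent.K6.H54.Imb.imb G (ed i)) hb hev (by
    intro r
    have h1 : (Finset.Iic r).image ed ⊆ G.edgeFinset := by
      rw [← hedE]
      exact Finset.image_subset_image (Finset.subset_univ _)
    have h2 : ((Finset.Iic r).image ed).card = r.1 + 1 := by
      rw [Finset.card_image_of_injective _ hedinj, Fin.card_Iic]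
    have h3 := Pool.Agent.K6.H54.Imb.eg_ineq G hpos (r.1 + 1) _ h1 h2
    have h4 : G.edgeFinset \ (Finset.Iic r).image ed = (Finset.Ioi r).image ed := by
      rw [← hedE]
      ext x
      simp only [mem_sdiff, mem_image, mem_univ, true_and, mem_Iic, mem_Ioi, not_exists, not_and]
      constructor
      · rintro ⟨⟨i, rfl⟩, hi⟩
        exact ⟨i, not_le.1 fun h => hi i h rfl, rfl⟩
      · rintro ⟨i, hi, rfl⟩
        exact ⟨⟨i, rfl⟩, fun j hj h => by rw [hedinj h] at hj; exact absurd hi (not_lt.2 hj)⟩
    rw [h4, Finset.sum_image (fun i _ j _ h => hedinj h),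
      Finset.sum_image (fun i _ j _ h => hedinj h)] at h3
    have h5 : ((∑ i ∈ Finset.Iic r, Pool.Agent.K6.H54.Imb.imb G (ed i) : ℕ) : ℤ) ≤
        (((r.1 + 1) * r.1 + ∑ k ∈ Finset.Ioi r,
          min (Pool.Agent.K6.H54.Imb.imb G (ed k)) (r.1 + 1) : ℕ) : ℤ) := by
      push_cast at h3 ⊢
      linarith
    exact_mod_cast h5)
  refine ⟨m, H, inferInstance, ?_⟩
  have hdeg : ∀ v, H.degree v = Pool.Agent.K6.H54.Imb.imb G (ed v) := by
    intro v
    rw [← hH v]
    unfold Pool.Agent.R798.EGdeg.dg Pool.Agent.R798.EGdeg.nbr
    rw [← SimpleGraph.card_neighborFinset_eq_degree]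
    congr 1
    ext w
    simp
  have h1 : (Finset.univ : Finset (Fin m)).val.map (fun v => H.degree v) =
      (Finset.univ : Finset (Fin m)).val.map
        (fun v => Pool.Agent.K6.H54.Imb.imb G (ed v)) := by
    apply Multiset.map_congr rfl
    intro v _
    rw [hdeg v]
  rw [h1]
  unfold imbalanceMultiset
  rw [himb, ← hedE, Finset.image_val_of_injOn (hedinj.injOn), Multiset.map_map]
  rfl

end Pool.Agent.Results.MP_440a65_co.ImbalanceGraphic
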